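import Pool.Agent.Helper15.LP.Defs

set_option autoImplicit false

/-!
BAL: self-balancing walk.
-/

open Finset
open scoped Classical
open Pool.Agent.Helper15.LR

namespace Pool.Agent.Helper15.LP

noncomputable section

open MeasureTheory ProbabilityTheory in
/-- Hoeffding's lemma for a sign with mean `m` -/
lemma BAL_hoeff (m s : ℝ) (hm : |m| ≤ 1) :
    (1 + m) / 2 * Real.exp s + (1 - m) / 2 * Real.exp (-s) ≤ Real.exp (m * s + s ^ 2 / 2) := by
  obtain ⟨hm1, hm2⟩ := abs_le.mp hm
  set p : ENNReal := ENNReal.ofReal ((1 + m) / 2) with hp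
  set q : ENNReal := ENNReal.ofReal ((1 - m) / 2) with hq
  set μ : Measure ℝ := p • Measure.dirac 1 + q • Measure.dirac (-1) with hμ
  have hpr : IsProbabilityMeasure μ := by
    constructor
    simp only [hμ, Measure.coe_add, Pi.add_apply, Measure.smul_apply, measure_univ, smul_eq_mul,
      mul_one]
    rw [hp, hq, ← ENNReal.ofReal_add (by linarith) (by linarith)]
    rw [show (1 + m) / 2 + (1 - m) / 2 = 1 by ring, ENNReal.ofReal_one]
  have hint : ∀ f : ℝ → ℝ, ∫ x, f x ∂μ = (1 + m) / 2 * f 1 + (1 - m) / 2 * f (-1) := by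
    intro f
    have hf1 : Integrable f (p • Measure.dirac (1 : ℝ)) :=
      (integrable_dirac (by simp)).smul_measure ENNReal.ofReal_ne_top
    have hf2 : Integrable f (q • Measure.dirac (-1 : ℝ)) :=
      (integrable_dirac (by simp)).smul_measure ENNReal.ofReal_ne_top
    rw [hμ, integral_add_measure hf1 hf2, integral_smul_measure, integral_smul_measure,
      integral_dirac, integral_dirac, hp, hq, ENNReal.toReal_ofReal (by linarith),
      ENNReal.toReal_ofReal (by linarith), smul_eq_mul, smul_eq_mul]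
  have hb : ∀ᵐ x ∂μ, id x ∈ Set.Icc (-1 : ℝ) 1 := by
    rw [hμ, ae_add_measure_iff]
    constructor
    · refine Measure.ae_smul_measure ?_ _
      rw [ae_dirac_iff (by exact measurableSet_Icc)]
      norm_num
    · refine Measure.ae_smul_measure ?_ _
      rw [ae_dirac_iff (by exact measurableSet_Icc)]
      norm_num
  have h := (hasSubgaussianMGF_of_mem_Icc (X := id) (μ := μ) aemeasurable_id hb).mgf_le s
  have hmean : ∫ x, id x ∂μ = m := by rw [hint]; simp only [id]; ring
  rw [hmean, mgf, hint] at h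
  have e1 : (‖(1 : ℝ) - -1‖₊ / 2 : NNReal) = 1 := by
    ext
    simp only [NNReal.coe_div, coe_nnnorm, Real.norm_eq_abs, NNReal.coe_ofNat, NNReal.coe_one]
    norm_num
  rw [e1] at h
  simp only [id, one_pow, NNReal.coe_one, one_mul] at h
  have h2 : (1 + m) / 2 * Real.exp s + (1 - m) / 2 * Real.exp (-s) =
      Real.exp (m * s) * ((1 + m) / 2 * Real.exp (s * (1 - m)) +
        (1 - m) / 2 * Real.exp (s * (-1 - m))) := by
    rw [mul_add, mul_left_comm, mul_left_comm (Real.exp (m * s)), ← Real.exp_add, ← Real.exp_add]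
    ring_nf
  rw [h2, Real.exp_add]
  exact mul_le_mul_of_nonneg_left h (Real.exp_nonneg _)

lemma BAL_sum {N : ℕ} (f : (Fin (N + 1) → Bool) → ℝ) :
    ∑ ε, f ε = ∑ ε' : Fin N → Bool, (f (Fin.cons true ε') + f (Fin.cons false ε')) := by
  rw [← (Fin.consEquiv (fun _ : Fin (N + 1) => Bool)).sum_comp, Fintype.sum_prod_type,
    Fintype.sum_bool, ← Finset.sum_add_distrib]
  rfl

/-- exponential moments give tails -/
lemma BAL_tail {A E : Type} [Fintype A] [Fintype E] (c : ℝ) (W : A → ℝ) (G : Set A)
    (Y : A → E → ℝ) (hW : ∀ ε, 0 ≤ W ε) (hc : 0 ≤ c)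
    (h : ∀ θ : E → ℝ, ∑ ε, (if ε ∈ G then W ε * Real.exp (∑ x, Y ε x * θ x) else 0) ≤
      Real.exp (c / 2 * ∑ x, θ x ^ 2))
    (θ : E → ℝ) (T t lam : ℝ) (hT : ∑ x, θ x ^ 2 ≤ T) (hlam : 0 ≤ lam) :
    ∑ ε, (if ε ∈ G ∧ t < |∑ x, Y ε x * θ x| then W ε else 0) ≤
      2 * Real.exp (-(lam * t) + c / 2 * lam ^ 2 * T) := by
  have h1 : ∀ σ : ℝ, σ ^ 2 = lam ^ 2 →
      ∑ ε, (if ε ∈ G then W ε * Real.exp (σ * ∑ x, Y ε x * θ x) else 0) ≤
        Real.exp (c / 2 * lam ^ 2 * T) := by
    intro σ hσ
    have h2 := h (fun x => σ * θ x)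
    have h3 : ∀ ε, ∑ x, Y ε x * (σ * θ x) = σ * ∑ x, Y ε x * θ x := by
      intro ε
      rw [Finset.mul_sum]
      exact Finset.sum_congr rfl (fun x _ => by ring)
    simp only [h3] at h2
    refine h2.trans (Real.exp_le_exp.mpr ?_)
    have h4 : ∑ x, (σ * θ x) ^ 2 = lam ^ 2 * ∑ x, θ x ^ 2 := by
      rw [Finset.mul_sum]
      refine Finset.sum_congr rfl (fun x _ => ?_)
      rw [mul_pow, hσ]
    rw [h4]
    have h5 : 0 ≤ c / 2 * lam ^ 2 := by positivity
    calc c / 2 * (lam ^ 2 * ∑ x, θ x ^ 2) = c / 2 * lam ^ 2 * ∑ x, θ x ^ 2 := by ring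
      _ ≤ c / 2 * lam ^ 2 * T := mul_le_mul_of_nonneg_left hT h5
  have hp := h1 lam rfl
  have hn := h1 (-lam) (by ring)
  have h6 : ∀ ε, (if ε ∈ G ∧ t < |∑ x, Y ε x * θ x| then W ε else 0) ≤
      Real.exp (-(lam * t)) * ((if ε ∈ G then W ε * Real.exp (lam * ∑ x, Y ε x * θ x) else 0) +
        (if ε ∈ G then W ε * Real.exp (-lam * ∑ x, Y ε x * θ x) else 0)) := by
    intro ε
    set a := ∑ x, Y ε x * θ x
    by_cases hG : ε ∈ G
    · simp only [hG, true_and, if_true]
      split_ifs with ht
      · rw [← mul_add, mul_left_comm]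
        have h7 : 1 ≤ Real.exp (-(lam * t)) * (Real.exp (lam * a) + Real.exp (-lam * a)) := by
          rcases lt_abs.mp ht with h8 | h8
          · have h9 : 1 ≤ Real.exp (-(lam * t)) * Real.exp (lam * a) := by
              rw [← Real.exp_add]
              apply Real.one_le_exp
              nlinarith [mul_le_mul_of_nonneg_left h8.le hlam]
            nlinarith [Real.exp_pos (-(lam * t)), Real.exp_pos (-lam * a),
              mul_pos (Real.exp_pos (-(lam * t))) (Real.exp_pos (-lam * a))]
          · have h9 : 1 ≤ Real.exp (-(lam * t)) * Real.exp (-lam * a) := by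
              rw [← Real.exp_add]
              apply Real.one_le_exp
              nlinarith [mul_le_mul_of_nonneg_left h8.le hlam]
            nlinarith [mul_pos (Real.exp_pos (-(lam * t))) (Real.exp_pos (lam * a))]
        calc W ε = W ε * 1 := (mul_one _).symm
          _ ≤ _ := mul_le_mul_of_nonneg_left h7 (hW ε)
      · have := hW ε
        positivity
    · simp [hG]
  calc _ ≤ ∑ ε, Real.exp (-(lam * t)) *
        ((if ε ∈ G then W ε * Real.exp (lam * ∑ x, Y ε x * θ x) else 0) +
        (if ε ∈ G then W ε * Real.exp (-lam * ∑ x, Y ε x * θ x) else 0)) :=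
        Finset.sum_le_sum (fun ε _ => h6 ε)
    _ = Real.exp (-(lam * t)) *
        (∑ ε, (if ε ∈ G then W ε * Real.exp (lam * ∑ x, Y ε x * θ x) else 0) +
        ∑ ε, (if ε ∈ G then W ε * Real.exp (-lam * ∑ x, Y ε x * θ x) else 0)) := by
        rw [← Finset.mul_sum, Finset.sum_add_distrib]
    _ ≤ Real.exp (-(lam * t)) * (Real.exp (c / 2 * lam ^ 2 * T) +
        Real.exp (c / 2 * lam ^ 2 * T)) :=
        mul_le_mul_of_nonneg_left (add_le_add hp hn) (Real.exp_nonneg _)
    _ = 2 * Real.exp (-(lam * t) + c / 2 * lam ^ 2 * T) := by rw [Real.exp_add]; ring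

/-- position of the walk -/
def BAL_Y {N : ℕ} {E : Type} (v : Fin N → E → ℝ) (μ : Fin N → ℝ) (ε : Fin N → Bool) (x : E) : ℝ :=
  ∑ i, (sgn (ε i) - μ i) * v i x

lemma BAL_Ysum {N : ℕ} {E : Type} [Fintype E] (v : Fin N → E → ℝ) (μ : Fin N → ℝ)
    (ε : Fin N → Bool) (θ : E → ℝ) :
    ∑ x, BAL_Y v μ ε x * θ x = ∑ i, (sgn (ε i) - μ i) * ∑ x, v i x * θ x := by
  unfold BAL_Y
  simp only [Finset.sum_mul, Finset.mul_sum]
  rw [Finset.sum_comm]
  exact Finset.sum_congr rfl (fun i _ => Finset.sum_congr rfl (fun x _ => by ring))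

lemma BAL_Ycons {N : ℕ} {E : Type} (v : Fin (N + 1) → E → ℝ) (μ : Fin (N + 1) → ℝ)
    (b : Bool) (ε : Fin N → Bool) (x : E) :
    BAL_Y v μ (Fin.cons b ε : Fin (N + 1) → Bool) x =
      (sgn b - μ 0) * v 0 x + BAL_Y (fun i => v i.succ) (fun i => μ i.succ) ε x := by
  unfold BAL_Y
  rw [Fin.sum_univ_succ]
  simp [Fin.cons_zero, Fin.cons_succ]

theorem BAL_main (E : Type) [Fintype E] (c : ℝ) (hc : 1 ≤ c) (N : ℕ) :
    ∀ (v : Fin N → E → ℝ) (μ : Fin N → ℝ), (∀ i, ∑ x, v i x ^ 2 ≤ 1) → (∀ i, |μ i| ≤ 1 / 2) →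
    ∃ (W : (Fin N → Bool) → ℝ) (G : Set (Fin N → Bool)), (∀ ε, 0 ≤ W ε) ∧ ∑ ε, W ε = 1 ∧
      (∀ θ : E → ℝ, ∑ ε, (if ε ∈ G then W ε * Real.exp (∑ x, BAL_Y v μ ε x * θ x) else 0) ≤
        Real.exp (c / 2 * ∑ x, θ x ^ 2)) ∧
      (∑ ε, (if ε ∈ G then 0 else W ε) ≤ N * (2 * Real.exp (-(c / 32)))) ∧
      (∀ i b, ∑ ε, (if ε i = b then W ε else 0) ≤ 7 / 8) ∧
      (∀ i j, i ≠ j → ∑ ε, (if ε i = ε j then W ε else 0) ≤ 7 / 8) := by
  have hc0 : 0 < c := by linarith
  induction N with
  | zero =>
    intro v μ _ _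
    refine ⟨fun _ => 1, Set.univ, fun _ => zero_le_one, by simp, ?_, by simp, fun i => i.elim0,
      fun i => i.elim0⟩
    intro θ
    have h1 : ∀ ε : Fin 0 → Bool, ∑ x, BAL_Y v μ ε x * θ x = 0 := by
      intro ε
      simp [BAL_Y]
    simp only [h1, Set.mem_univ, if_true, Real.exp_zero, mul_one, Finset.univ_unique,
      Finset.sum_const, Finset.card_singleton, one_smul]
    apply Real.one_le_exp
    have : 0 ≤ ∑ x, θ x ^ 2 := Finset.sum_nonneg (fun x _ => sq_nonneg _)
    positivity
  | succ N ih =>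
    intro v μ hv hμ
    obtain ⟨W', G', hW0, hW1, hE, hB, hS1, hS2⟩ := ih (fun i => v i.succ) (fun i => μ i.succ)
      (fun i => hv i.succ) (fun i => hμ i.succ)
    set Y' : (Fin N → Bool) → E → ℝ := BAL_Y (fun i => v i.succ) (fun i => μ i.succ) with hY'
    set a : (Fin N → Bool) → ℝ := fun ε => ∑ x, Y' ε x * v 0 x with ha
    set m : (Fin N → Bool) → ℝ := fun ε => μ 0 - max (-(c / 4)) (min (c / 4) (a ε)) / c with hm
    have hm34 : ∀ ε, |m ε| ≤ 3 / 4 := by
      intro ε
      have h1 : |max (-(c / 4)) (min (c / 4) (a ε)) / c| ≤ 1 / 4 := by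
        rw [abs_div, abs_of_pos hc0, div_le_iff₀ hc0, abs_le]
        constructor
        · have := le_max_left (-(c / 4)) (min (c / 4) (a ε)); linarith
        · have : max (-(c / 4)) (min (c / 4) (a ε)) ≤ c / 4 :=
            max_le (by linarith) (min_le_left _ _)
          linarith
      have h2 := hμ 0
      calc |m ε| ≤ |μ 0| + |max (-(c / 4)) (min (c / 4) (a ε)) / c| := abs_sub _ _
        _ ≤ 1 / 2 + 1 / 4 := add_le_add h2 h1
        _ = 3 / 4 := by norm_num
    have hm1 : ∀ ε, -(3 / 4) ≤ m ε ∧ m ε ≤ 3 / 4 := fun ε => abs_le.mp (hm34 ε)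
    set W : (Fin (N + 1) → Bool) → ℝ := fun ε =>
      W' (Fin.tail ε) * ((1 + sgn (ε 0) * m (Fin.tail ε)) / 2) with hW
    have hWt : ∀ ε' : Fin N → Bool, W (Fin.cons true ε' : Fin (N + 1) → Bool) =
        W' ε' * ((1 + m ε') / 2) := by
      intro ε'
      simp [hW, Fin.tail_cons, Fin.cons_zero, sgn]
    have hWf : ∀ ε' : Fin N → Bool, W (Fin.cons false ε' : Fin (N + 1) → Bool) =
        W' ε' * ((1 - m ε') / 2) := by
      intro ε'
      simp [hW, Fin.tail_cons, Fin.cons_zero, sgn, sub_eq_add_neg]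
    have hWnn : ∀ ε, 0 ≤ W ε := by
      intro ε
      obtain ⟨b, ε', rfl⟩ : ∃ (b : Bool) (ε' : Fin N → Bool),
          ε = (Fin.cons b ε' : Fin (N + 1) → Bool) := ⟨ε 0, Fin.tail ε, (Fin.cons_self_tail ε).symm⟩
      have h1 := hm1 ε'
      cases b
      · rw [hWf]; exact mul_nonneg (hW0 _) (by linarith [h1.2])
      · rw [hWt]; exact mul_nonneg (hW0 _) (by linarith [h1.1])
    have hWsum : ∀ (f : (Fin N → Bool) → Prop) [DecidablePred f], ∑ ε : Fin (N + 1) → Bool,
        (if f (Fin.tail ε) then W ε else 0) = ∑ ε', (if f ε' then W' ε' else 0) := by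
      intro f _
      rw [BAL_sum]
      refine Finset.sum_congr rfl (fun ε' _ => ?_)
      simp only [Fin.tail_cons, hWt, hWf]
      split_ifs <;> ring
    obtain ⟨G, hG⟩ : ∃ G : Set (Fin (N + 1) → Bool),
        ∀ ε, ε ∈ G ↔ Fin.tail ε ∈ G' ∧ |a (Fin.tail ε)| ≤ c / 4 :=
      ⟨{ε | Fin.tail ε ∈ G' ∧ |a (Fin.tail ε)| ≤ c / 4}, fun ε => Iff.rfl⟩
    refine ⟨W, G, hWnn, ?_, ?_, ?_, ?_, ?_⟩
    · have := hWsum (fun _ => True)
      simpa [hW1] using this
    · intro θ
      set s := ∑ x, v 0 x * θ x with hs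
      have h1 : ∑ ε, (if ε ∈ G then W ε * Real.exp (∑ x, BAL_Y v μ ε x * θ x) else 0) ≤
          ∑ ε', (if ε' ∈ G' then W' ε' * Real.exp (∑ x, Y' ε' x * (θ x - s / c * v 0 x)) else 0) *
            Real.exp (s ^ 2 / 2) := by
        rw [BAL_sum]
        refine Finset.sum_le_sum (fun ε' _ => ?_)
        simp only [hG, Fin.tail_cons, hWt, hWf]
        by_cases hg : ε' ∈ G'
        · simp only [hg, true_and, if_true]
          by_cases hac : |a ε'| ≤ c / 4
          · simp only [hac, if_true]
            have hm' : m ε' = μ 0 - a ε' / c := by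
              obtain ⟨ha1, ha2⟩ := abs_le.mp hac
              simp only [hm]
              rw [min_eq_right ha2, max_eq_right ha1]
            have hL : ∀ b : Bool, ∑ x, BAL_Y v μ (Fin.cons b ε' : Fin (N + 1) → Bool) x * θ x =
                (sgn b - μ 0) * s + ∑ x, Y' ε' x * θ x := by
              intro b
              rw [hs, Finset.mul_sum, ← Finset.sum_add_distrib]
              refine Finset.sum_congr rfl (fun x _ => ?_)
              rw [BAL_Ycons]
              simp only [hY']
              ring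
            rw [hL, hL]
            have hL2 : ∑ x, Y' ε' x * (θ x - s / c * v 0 x) =
                ∑ x, Y' ε' x * θ x - s / c * a ε' := by
              simp only [ha]
              rw [Finset.mul_sum, ← Finset.sum_sub_distrib]
              exact Finset.sum_congr rfl (fun x _ => by ring)
            rw [hL2]
            set L := ∑ x, Y' ε' x * θ x
            have hh := BAL_hoeff (m ε') s ((hm34 ε').trans (by norm_num))
            have e1 : W' ε' * ((1 + m ε') / 2) * Real.exp ((sgn true - μ 0) * s + L) +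
                W' ε' * ((1 - m ε') / 2) * Real.exp ((sgn false - μ 0) * s + L) =
                W' ε' * Real.exp (L - μ 0 * s) *
                  ((1 + m ε') / 2 * Real.exp s + (1 - m ε') / 2 * Real.exp (-s)) := by
              have e2 : (sgn true - μ 0) * s + L = (L - μ 0 * s) + s := by simp [sgn]; ring
              have e3 : (sgn false - μ 0) * s + L = (L - μ 0 * s) + -s := by simp [sgn]; ring
              rw [e2, e3, Real.exp_add, Real.exp_add]
              ring
            rw [e1]
            have e4 : Real.exp (L - s / c * a ε') * Real.exp (s ^ 2 / 2) =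
                Real.exp (L - μ 0 * s) * Real.exp (m ε' * s + s ^ 2 / 2) := by
              rw [← Real.exp_add, ← Real.exp_add, hm']
              congr 1
              ring
            rw [mul_assoc (W' ε') (Real.exp (L - s / c * a ε')), e4, ← mul_assoc]
            exact mul_le_mul_of_nonneg_left hh (mul_nonneg (hW0 _) (Real.exp_nonneg _))
          · simp only [hac, if_false, add_zero]
            have := hW0 ε'
            positivity
        · simp [hg]
      refine h1.trans ?_
      rw [← Finset.sum_mul]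
      have h2 := hE (fun x => θ x - s / c * v 0 x)
      have h3 : ∑ x, (θ x - s / c * v 0 x) ^ 2 ≤
          ∑ x, θ x ^ 2 - 2 * (s / c) * s + (s / c) ^ 2 := by
        have h4 : ∑ x, (θ x - s / c * v 0 x) ^ 2 =
            ∑ x, θ x ^ 2 - 2 * (s / c) * s + (s / c) ^ 2 * ∑ x, v 0 x ^ 2 := by
          rw [hs, Finset.mul_sum, Finset.mul_sum, ← Finset.sum_sub_distrib,
            ← Finset.sum_add_distrib]
          exact Finset.sum_congr rfl (fun x _ => by ring)
        rw [h4]
        have h5 := mul_le_mul_of_nonneg_left (hv 0) (sq_nonneg (s / c))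
        linarith
      calc _ ≤ Real.exp (c / 2 * ∑ x, (θ x - s / c * v 0 x) ^ 2) * Real.exp (s ^ 2 / 2) :=
            mul_le_mul_of_nonneg_right h2 (Real.exp_nonneg _)
        _ ≤ Real.exp (c / 2 * ∑ x, θ x ^ 2) := by
            rw [← Real.exp_add]
            apply Real.exp_le_exp.mpr
            have h6 := mul_le_mul_of_nonneg_left h3 (by positivity : 0 ≤ c / 2)
            have h7 : c / 2 * (∑ x, θ x ^ 2 - 2 * (s / c) * s + (s / c) ^ 2) =
                c / 2 * ∑ x, θ x ^ 2 - s ^ 2 + s ^ 2 / (2 * c) := by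
              field_simp
            have h8 : s ^ 2 / (2 * c) ≤ s ^ 2 / 2 := by
              apply div_le_div_of_nonneg_left (sq_nonneg s) (by norm_num)
              linarith
            linarith
    · have h1 : ∀ ε : Fin (N + 1) → Bool, (if ε ∈ G then 0 else W ε) ≤
          (if Fin.tail ε ∉ G' then W ε else 0) +
          (if (Fin.tail ε ∈ G' ∧ c / 4 < |a (Fin.tail ε)|) then W ε else 0) := by
        intro ε
        have h0 := hWnn ε
        by_cases h2 : Fin.tail ε ∈ G'
        · by_cases h3 : |a (Fin.tail ε)| ≤ c / 4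
          · have : ε ∈ G := (hG ε).mpr ⟨h2, h3⟩
            simp only [this, if_true]
            split_ifs <;> linarith
          · have h4 : c / 4 < |a (Fin.tail ε)| := not_le.mp h3
            have h5 : ε ∉ G := fun h => h3 ((hG ε).mp h).2
            simp [h5, h2, h4]
        · have h5 : ε ∉ G := fun h => h2 ((hG ε).mp h).1
          simp [h5, h2]
      calc _ ≤ ∑ ε : Fin (N + 1) → Bool, ((if Fin.tail ε ∉ G' then W ε else 0) +
          (if (Fin.tail ε ∈ G' ∧ c / 4 < |a (Fin.tail ε)|) then W ε else 0)) :=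
            Finset.sum_le_sum (fun ε _ => h1 ε)
        _ = ∑ ε', (if ε' ∉ G' then W' ε' else 0) +
            ∑ ε', (if ε' ∈ G' ∧ c / 4 < |a ε'| then W' ε' else 0) := by
            rw [Finset.sum_add_distrib]
            exact congrArg₂ (· + ·) (hWsum (fun ε' => ε' ∉ G'))
              (hWsum (fun ε' => ε' ∈ G' ∧ c / 4 < |a ε'|))
        _ ≤ N * (2 * Real.exp (-(c / 32))) + 2 * Real.exp (-(c / 32)) := by
            refine add_le_add ?_ ?_
            · have : ∑ ε', (if ε' ∉ G' then W' ε' else 0) =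
                  ∑ ε', (if ε' ∈ G' then 0 else W' ε') := by
                refine Finset.sum_congr rfl (fun ε' _ => ?_)
                split_ifs <;> simp_all
              rw [this]; exact hB
            · have := BAL_tail c W' G' Y' hW0 hc0.le hE (v 0) 1 (c / 4) (1 / 4) (hv 0)
                (by norm_num)
              refine this.trans (le_of_eq ?_)
              congr 2
              ring
        _ = ((N + 1 : ℕ) : ℝ) * (2 * Real.exp (-(c / 32))) := by push_cast; ring
    · intro i b
      refine Fin.cases ?_ (fun i => ?_) i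
      · rw [BAL_sum]
        have h1 : ∀ ε' : Fin N → Bool,
            (if (Fin.cons true ε' : Fin (N + 1) → Bool) 0 = b then
              W (Fin.cons true ε' : Fin (N + 1) → Bool) else 0) +
            (if (Fin.cons false ε' : Fin (N + 1) → Bool) 0 = b then
              W (Fin.cons false ε' : Fin (N + 1) → Bool) else 0) ≤ W' ε' * (7 / 8) := by
          intro ε'
          have h2 := hm1 ε'
          have h3 := hW0 ε'
          rw [hWt, hWf, Fin.cons_zero, Fin.cons_zero]
          cases b
          · simp only [Bool.true_eq_false, if_false, if_true, zero_add]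
            exact mul_le_mul_of_nonneg_left (by linarith [h2.1]) h3
          · simp only [Bool.false_eq_true, if_false, if_true, add_zero]
            exact mul_le_mul_of_nonneg_left (by linarith [h2.2]) h3
        calc _ ≤ ∑ ε', W' ε' * (7 / 8) := Finset.sum_le_sum (fun ε' _ => h1 ε')
          _ = 7 / 8 := by rw [← Finset.sum_mul, hW1, one_mul]
      · have := hWsum (fun ε' => ε' i = b)
        have h2 : ∀ ε : Fin (N + 1) → Bool, (Fin.tail ε i = b) = (ε i.succ = b) := fun ε => rfl
        simp only [h2] at this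
        rw [this]
        exact hS1 i b
    · have hkey : ∀ j : Fin N, ∑ ε : Fin (N + 1) → Bool,
          (if ε 0 = ε j.succ then W ε else 0) ≤ 7 / 8 := by
        intro j
        rw [BAL_sum]
        have h1 : ∀ ε' : Fin N → Bool,
            (if (Fin.cons true ε' : Fin (N + 1) → Bool) 0 =
                (Fin.cons true ε' : Fin (N + 1) → Bool) j.succ then
              W (Fin.cons true ε' : Fin (N + 1) → Bool) else 0) +
            (if (Fin.cons false ε' : Fin (N + 1) → Bool) 0 =
                (Fin.cons false ε' : Fin (N + 1) → Bool) j.succ then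
              W (Fin.cons false ε' : Fin (N + 1) → Bool) else 0) ≤ W' ε' * (7 / 8) := by
          intro ε'
          have h2 := hm1 ε'
          have h3 := hW0 ε'
          rw [hWt, hWf, Fin.cons_zero, Fin.cons_zero, Fin.cons_succ, Fin.cons_succ]
          cases ε' j
          · simp only [Bool.true_eq_false, if_false, if_true, zero_add]
            exact mul_le_mul_of_nonneg_left (by linarith [h2.1]) h3
          · simp only [Bool.false_eq_true, if_false, if_true, add_zero]
            exact mul_le_mul_of_nonneg_left (by linarith [h2.2]) h3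
        calc _ ≤ ∑ ε', W' ε' * (7 / 8) := Finset.sum_le_sum (fun ε' _ => h1 ε')
          _ = 7 / 8 := by rw [← Finset.sum_mul, hW1, one_mul]
      intro i j hij
      induction i using Fin.cases with
      | zero =>
        induction j using Fin.cases with
        | zero => exact absurd rfl hij
        | succ j => exact hkey j
      | succ i =>
        induction j using Fin.cases with
        | zero =>
          have := hkey i
          simp only [eq_comm] at this ⊢
          exact this
        | succ j =>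
          have hij' : i ≠ j := fun h => hij (by rw [h])
          have h1 := hWsum (fun ε' => ε' i = ε' j)
          have h2 : ∀ ε : Fin (N + 1) → Bool, (Fin.tail ε i = Fin.tail ε j) =
            (ε i.succ = ε j.succ) := fun ε => rfl
          simp only [h2] at h1
          rw [h1]
          exact hS2 i j hij'

theorem lp_BAL : Balance_stmt := by
  intro ι E _ _ v μ c hc hv hμ
  set e : ι ≃ Fin (Fintype.card ι) := Fintype.equivFin ι with he
  obtain ⟨W, G, hW0, hW1, hE, hB, hS1, hS2⟩ := BAL_main E c hc (Fintype.card ι)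
    (fun i => v (e.symm i)) (fun i => μ (e.symm i)) (fun i => hv _) (fun i => hμ _)
  have hc0 : 0 < c := by linarith
  set F : (ι → Bool) ≃ (Fin (Fintype.card ι) → Bool) := Equiv.arrowCongr e (Equiv.refl Bool)
    with hF
  have hFa : ∀ (ε : ι → Bool) (i : ι), F ε (e i) = ε i := by
    intro ε i
    simp [hF, Equiv.arrowCongr]
  refine ⟨fun ε => W (F ε), fun ε => hW0 _, ?_, ?_, ?_, ?_⟩
  · rw [F.sum_comp W]; exact hW1
  · intro θ T t hθ hT ht
    have h1 : ∀ ε : ι → Bool, ∑ i, (sgn (ε i) - μ i) * ∑ x, v i x * θ x =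
        ∑ x, BAL_Y (fun i => v (e.symm i)) (fun i => μ (e.symm i)) (F ε) x * θ x := by
      intro ε
      rw [BAL_Ysum, ← e.sum_comp]
      refine Finset.sum_congr rfl (fun i _ => ?_)
      rw [hFa, e.symm_apply_apply]
    simp only [h1]
    have h2 := F.sum_comp (fun ε' => if t < |∑ x, BAL_Y (fun i => v (e.symm i))
      (fun i => μ (e.symm i)) ε' x * θ x| then W ε' else 0)
    rw [h2]
    have h3 := BAL_tail c W G _ hW0 hc0.le hE θ T t (t / (c * T)) hθ (by positivity)
    have h4 : -(t / (c * T) * t) + c / 2 * (t / (c * T)) ^ 2 * T = -(t ^ 2 / (2 * c * T)) := by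
      field_simp
      ring
    rw [h4] at h3
    have h5 : ∀ ε' : Fin (Fintype.card ι) → Bool, (if t < |∑ x, BAL_Y (fun i => v (e.symm i))
        (fun i => μ (e.symm i)) ε' x * θ x| then W ε' else 0) ≤
        (if ε' ∈ G ∧ t < |∑ x, BAL_Y (fun i => v (e.symm i))
          (fun i => μ (e.symm i)) ε' x * θ x| then W ε' else 0) +
        (if ε' ∈ G then 0 else W ε') := by
      intro ε'
      have h0 := hW0 ε'
      by_cases hg : ε' ∈ G
      · simp [hg]
      · simp only [hg, false_and, if_false, zero_add]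
        split_ifs <;> linarith
    calc _ ≤ ∑ ε', ((if ε' ∈ G ∧ t < |∑ x, BAL_Y (fun i => v (e.symm i))
          (fun i => μ (e.symm i)) ε' x * θ x| then W ε' else 0) +
        (if ε' ∈ G then 0 else W ε')) := Finset.sum_le_sum (fun ε' _ => h5 ε')
      _ ≤ 2 * Real.exp (-(t ^ 2 / (2 * c * T))) +
          Fintype.card ι * (2 * Real.exp (-(c / 32))) := by
          rw [Finset.sum_add_distrib]
          exact add_le_add h3 hB
      _ = _ := by ring
  · intro i b
    have h2 := F.sum_comp (fun ε' => if ε' (e i) = b then W ε' else 0)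
    simp only [hFa] at h2
    rw [h2]
    exact hS1 (e i) b
  · intro i j hij
    have h2 := F.sum_comp (fun ε' => if ε' (e i) = ε' (e j) then W ε' else 0)
    simp only [hFa] at h2
    rw [h2]
    exact hS2 (e i) (e j) (fun h => hij (e.injective h))

end

end Pool.Agent.Helper15.LP
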